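import Pool.Agent.H59.L.S8.W223.RA.Stms

set_option autoImplicit false

namespace Pool.Agent.W12.RA

open Pool.Agent.W223.RA

theorem tLTE : StmtLTE := by
  intro G e P Q m he hG hP hm hd
  rw [Int.natCast_dvd]
  rw [Nat.dvd_iff_prime_pow_dvd_dvd]
  intro q k hq hk
  rcases Nat.eq_zero_or_pos k with h0 | h0
  · subst h0
    simp
  have hqG : q ∣ G := (dvd_pow_self q h0.ne').trans hk
  have hqm : q ∣ m := hG q hq hqG
  have hqP : ¬ ((q : ℤ) ∣ (P : ℤ)) := by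
    rw [Int.natCast_dvd_natCast]
    intro h
    have h1 : q ∣ Nat.gcd P m := Nat.dvd_gcd h hqm
    rw [hP.gcd_eq_one] at h1
    exact hq.one_lt.ne' (Nat.dvd_one.1 h1)
  have hqPQ : (q : ℤ) ∣ (P : ℤ) - Q := by
    refine dvd_trans ?_ hm
    rw [Int.natCast_dvd_natCast]
    exact hqm.trans (Dvd.intro_left 4 rfl)
  have h4 : (4 : ℤ) ∣ (P : ℤ) - Q := by
    refine dvd_trans ?_ hm
    have h5 : ((4 : ℕ) : ℤ) ∣ ((4 * m : ℕ) : ℤ) := by
      rw [Int.natCast_dvd_natCast]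
      exact Dvd.intro m rfl
    exact h5
  have hqI : Prime (q : ℤ) := Nat.prime_iff_prime_int.1 hq
  have hk2 : (q : ℤ) ^ k ∣ (P : ℤ) ^ e - (Q : ℤ) ^ e := by
    refine dvd_trans ?_ hd
    have h5 : ((q ^ k : ℕ) : ℤ) ∣ (G : ℤ) := by
      rw [Int.natCast_dvd_natCast]
      exact hk
    rw [Nat.cast_pow] at h5
    exact h5
  have hkey : emultiplicity (q : ℤ) ((P : ℤ) ^ e - (Q : ℤ) ^ e) =
      emultiplicity (q : ℤ) ((e : ℤ) * ((P : ℤ) - Q)) := by
    rw [emultiplicity_mul hqI]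
    rcases hq.eq_two_or_odd' with h2 | hodd
    · subst h2
      have h6 := Int.two_pow_sub_pow' (x := (P : ℤ)) (y := (Q : ℤ)) e h4 hqP
      have h7 : ((2 : ℕ) : ℤ) = 2 := rfl
      rw [h7, h6, add_comm]
    · have h6 := Int.emultiplicity_pow_sub_pow hq hodd hqPQ hqP e
      rw [h6, add_comm, Int.natCast_emultiplicity]
  rw [← Int.natCast_dvd, Nat.cast_pow]
  rw [pow_dvd_iff_le_emultiplicity] at hk2 ⊢
  rw [← hkey]
  exact hk2

end Pool.Agent.W12.RA
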